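import Pool.Agent.Y830.LS.ProdFin

/-!
Guth's question on large convex subsets of closed manifolds of strictly positive Ricci curvature
has a negative answer in dimension `n = 3` and in EVERY dimension `n ≥ 5`: for odd `n` already
among spherical space forms, for even `n ≥ 6` among Riemannian products of a three dimensional
spherical space form and a round sphere of dimension `n - 3 ≥ 3`.

Moreover, for every `c` and every odd `a ≥ 3` there is ONE spherical space form `M₁` of dimension
`a` whose Riemannian product with every compact connected space `N` (for example with every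
closed Riemannian manifold) has only geodesically convex subsets of volume less than
`c vol(M₁ × N)`.
-/

open MeasureTheory

namespace Pool.Agent.Results.MP_6c73b3_gt.EveryDimensionButFour

open Pool.Agent.H608R3.Lens Pool.Agent.Y830.LS

theorem result :
    (∀ n : ℕ, 3 ≤ n → n ≠ 4 → ∀ c : ENNReal, 0 < c →
      ∃ (M : Type) (_ : MetricSpace M) (_ : MeasurableSpace M) (_ : BorelSpace M)
        (vol : Measure M), SmallConvexSets c M vol ∧
        (Odd n → IsSphericalSpaceForm n M vol) ∧
        (Even n → IsProductOfSpaceForms 3 (n - 3) M vol)) ∧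
    (∀ m : ℕ, 1 ≤ m → ∀ c : ENNReal, 0 < c →
      ∃ (M₁ : Type) (_ : MetricSpace M₁) (_ : MeasurableSpace M₁) (_ : BorelSpace M₁)
        (vol₁ : Measure M₁), IsSphericalSpaceForm (2 * m + 1) M₁ vol₁ ∧
        ∀ (N : Type) [MetricSpace N] [MeasurableSpace N] [BorelSpace N] (ν : Measure N),
          CompactSpace N → ConnectedSpace N → 0 < ν Set.univ → ν Set.univ < ⊤ →
          ∃ (M : Type) (_ : MetricSpace M) (_ : MeasurableSpace M) (_ : BorelSpace M)
            (vol : Measure M), IsRiemannianProduct M vol M₁ vol₁ N ν ∧
            SmallConvexSets c M vol) := by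
  refine ⟨small_all, ?_⟩
  intro m hm c hc
  obtain ⟨M₁, i1, i2, i3, vol₁, hf, hs⟩ := small_odd m hm c hc
  refine ⟨M₁, i1, i2, i3, vol₁, hf, ?_⟩
  intro N _ _ _ ν k1 k2 k3 k4
  exact product_small M₁ vol₁ hs N ν k1 k2 k3 k4

end Pool.Agent.Results.MP_6c73b3_gt.EveryDimensionButFour
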